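import Pool.Agent.H701Z.Amen.Main

set_option autoImplicit false

namespace Pool.Agent.Results.MP_d97def_al.NullHalves

open Pool.Agent.H701Z.Amen

/-- Every non-amenable group splits into two sets of `is₁₂`-density zero. -/
theorem result (G : Type*) [Group G] (hG : ¬ Amenable G) :
    ∃ A : Set G, is12 A = 0 ∧ is12 Aᶜ = 0 :=
  exists_null_partition hG

end Pool.Agent.Results.MP_d97def_al.NullHalves
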